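import Pool.Agent.P.MP_c2aaf5_co.AsmAll

/-! The bigraded Frobenius characteristic of an intersection of Garsia-Haiman modules. -/

open Finset Pool.Agent.P.MP_c2aaf5_co

namespace Pool.Agent.Results.MP_c2aaf5_co.SciFi

/-- `Ht ν` is the modified Macdonald polynomial (the unique solution of the triangularity and
normalisation axioms `IsMac`); the `ν i` are distinct diagrams obtained from `μ` by removing one
cell, and `Der (Delta (e i))` is the Garsia-Haiman module of `ν i`. -/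
theorem result (m : ℕ) : ∃ Ht : YoungDiagram → SF m,
    (∀ ν : YoungDiagram, ν.card = m → ∀ H : SF m, IsMac m ν H ↔ H = Ht ν) ∧
    ∀ μ : YoungDiagram, μ.card = m + 1 → ∀ k : ℕ, 1 ≤ k →
      ∀ ν : Fin k → YoungDiagram, Function.Injective ν → (∀ i, ν i ≤ μ) →
      ∀ e : Fin k → Fin m → ℕ × ℕ, (∀ i, Lists (e i) (ν i)) →
      grFrob (⨅ i, Der (Delta (e i))) =
        ∑ i, (∏ j ∈ univ.erase i, TT (ν j) / (TT (ν j) - TT (ν i))) • Ht (ν i) := by
  have h : ∀ ν : YoungDiagram, ∃ H0 : SF m, ν.card = m → ∀ H : SF m, IsMac m ν H ↔ H = H0 := by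
    intro ν
    by_cases hν : ν.card = m
    · obtain ⟨H0, h1, h2⟩ := final.1 m ν hν
      exact ⟨H0, fun _ H => ⟨h2 H, fun e => e ▸ h1⟩⟩
    · exact ⟨0, fun h => absurd h hν⟩
  choose Ht hHt using h
  exact ⟨Ht, hHt, fun μ hμ k hk ν hν hle e he => final.2 m μ hμ k hk ν hν hle e he _
    fun i => (hHt _ (AsmMAux.card_eq (he i)) _).2 rfl⟩

end Pool.Agent.Results.MP_c2aaf5_co.SciFi
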